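import Pool.Agent.Helper88.Ric.Stmts

/-!
MP_092777_ag, module DL: local branches of the node coordinates.
-/

set_option autoImplicit false

open scoped ContDiff Manifold Topology MatrixGroups LinearAlgebra.Projectivization
open Complex

noncomputable section

namespace RicP

/-- from logarithms of `X, Y` to `(τ, z)` -/
def DL_inv (N k : ℕ) (a : E) : E :=
  ((N : ℂ) * (a.1 + a.2) / (2 * Real.pi * I), (a.2 + k * (a.1 + a.2)) / (2 * Real.pi * I))

/-- from `(τ, z)` to logarithms of `X, Y` -/
def DL_fwd (N k : ℕ) (x : E) : E :=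
  (2 * Real.pi * I * ((1 + k) * x.1 / N - x.2), 2 * Real.pi * I * (x.2 - k * x.1 / N))

theorem DL_2pi : (2 * Real.pi * I : ℂ) ≠ 0 := by
  simp [Real.pi_ne_zero]

theorem DL_fwd_inv (N k : ℕ) (hN : 1 ≤ N) (a : E) : DL_fwd N k (DL_inv N k a) = a := by
  have hN' : (N : ℂ) ≠ 0 := by exact_mod_cast (by omega : N ≠ 0)
  have h2 := DL_2pi
  have hI : I ≠ 0 := Complex.I_ne_zero
  have hpi : (Real.pi : ℂ) ≠ 0 := by exact_mod_cast Real.pi_ne_zero
  unfold DL_fwd DL_inv
  ext1
  · simp only
    field_simp
    ring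
  · simp only
    field_simp
    ring

theorem DL_inv_fwd (N k : ℕ) (hN : 1 ≤ N) (x : E) : DL_inv N k (DL_fwd N k x) = x := by
  have hN' : (N : ℂ) ≠ 0 := by exact_mod_cast (by omega : N ≠ 0)
  have h2 := DL_2pi
  have hI : I ≠ 0 := Complex.I_ne_zero
  have hpi : (Real.pi : ℂ) ≠ 0 := by exact_mod_cast Real.pi_ne_zero
  unfold DL_fwd DL_inv
  ext1
  · simp only
    field_simp
    ring
  · simp only
    field_simp
    ring

theorem DL_im (N k : ℕ) (hN : 1 ≤ N) (a : E) : 0 < (DL_inv N k a).1.im ↔ (a.1 + a.2).re < 0 := by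
  have hN' : (0 : ℝ) < N := by exact_mod_cast (by omega : 0 < N)
  have e1 : (DL_inv N k a).1 = ((N / (2 * Real.pi) : ℝ) : ℂ) * (-(I * (a.1 + a.2))) := by
    have hI : I ≠ 0 := Complex.I_ne_zero
    have hpi : (Real.pi : ℂ) ≠ 0 := by exact_mod_cast Real.pi_ne_zero
    unfold DL_inv
    simp only
    push_cast
    field_simp
    rw [Complex.I_sq]
    ring
  rw [e1, Complex.im_ofReal_mul, Complex.neg_im, Complex.I_mul_im]
  have hpi := Real.pi_pos
  constructor
  · intro h
    have h1 : 0 < (N / (2 * Real.pi) : ℝ) := by positivity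
    have h2 := (mul_pos_iff_of_pos_left h1).mp h
    linarith
  · intro h
    have h1 : 0 < (N / (2 * Real.pi) : ℝ) := by positivity
    exact mul_pos h1 (by linarith)

theorem DL_D0 (N k : ℕ) (hN : 1 ≤ N) (a p : E) (k' : ZMod N) (hk : k'.val = k)
    (h1 : Complex.exp a.1 = p.1) (h2 : Complex.exp a.2 = p.2) (hp : ‖p.1 * p.2‖ < 1) :
    D0 k' p (DL_inv N k a) := by
  have hN' : (N : ℂ) ≠ 0 := by exact_mod_cast (by omega : N ≠ 0)
  have hI : I ≠ 0 := Complex.I_ne_zero
  have hpi : (Real.pi : ℂ) ≠ 0 := by exact_mod_cast Real.pi_ne_zero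
  have e12 : Complex.exp (a.1 + a.2) = p.1 * p.2 := by rw [Complex.exp_add, h1, h2]
  refine ⟨?_, ?_, ?_⟩
  · rw [DL_im N k hN a]
    have h3 : ‖Complex.exp (a.1 + a.2)‖ < 1 := by rw [e12]; exact hp
    rw [Complex.norm_exp] at h3
    exact Real.exp_lt_one_iff.mp h3
  · have e3 : 2 * Real.pi * I * (DL_inv N k a).1 / N = a.1 + a.2 := by
      unfold DL_inv
      simp only
      field_simp
    rw [e3, e12]
  · have e3 : 2 * Real.pi * I * (DL_inv N k a).2 = a.2 + k * (a.1 + a.2) := by
      unfold DL_inv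
      simp only
      field_simp
    rw [e3, Complex.exp_add, Complex.exp_nat_mul, e12, h2, hk]

/-- continuity and smoothness of the linear maps -/
theorem DL_inv_cd (N k : ℕ) : ContDiff ℂ ω (DL_inv N k) := by
  unfold DL_inv
  exact ((contDiff_const.mul (contDiff_fst.add contDiff_snd)).div_const _).prodMk
    ((contDiff_snd.add (contDiff_const.mul (contDiff_fst.add contDiff_snd))).div_const _)

theorem DL_fwd_cd (N k : ℕ) : ContDiff ℂ ω (DL_fwd N k) := by
  unfold DL_fwd
  exact (contDiff_const.mul (((contDiff_const.mul contDiff_fst).div_const _).sub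
    contDiff_snd)).prodMk
    (contDiff_const.mul (contDiff_snd.sub ((contDiff_const.mul contDiff_fst).div_const _)))

/-- logarithms near `(exp l.1, exp l.2)` -/
def DL_log (l p : E) : E :=
  (l.1 + Complex.log (p.1 / Complex.exp l.1), l.2 + Complex.log (p.2 / Complex.exp l.2))

theorem DL_exp_log (l x : ℂ) (hx : x ≠ 0) :
    Complex.exp (l + Complex.log (x / Complex.exp l)) = x := by
  rw [Complex.exp_add, Complex.exp_log (div_ne_zero hx (Complex.exp_ne_zero l))]
  field_simp

theorem DL_log_exp (l a : ℂ) (h1 : -Real.pi < (a - l).im) (h2 : (a - l).im < Real.pi) :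
    l + Complex.log (Complex.exp a / Complex.exp l) = a := by
  rw [← Complex.exp_sub, Complex.log_exp h1 h2.le]
  ring

theorem DL_im_log (l x : ℂ) (hx : x / Complex.exp l ∈ Complex.slitPlane) :
    -Real.pi < ((l + Complex.log (x / Complex.exp l)) - l).im ∧
      ((l + Complex.log (x / Complex.exp l)) - l).im < Real.pi := by
  have e : ((l + Complex.log (x / Complex.exp l)) - l) = Complex.log (x / Complex.exp l) := by ring
  rw [e, Complex.log_im]
  refine ⟨Complex.neg_pi_lt_arg _, ?_⟩
  have h := Complex.arg_le_pi (x / Complex.exp l)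
  rcases lt_or_eq_of_le h with h | h
  · exact h
  · exact absurd h (Complex.mem_slitPlane_iff_arg.mp hx).1

theorem DL_exp_slit (l a : ℂ) (h1 : -Real.pi < (a - l).im) (h2 : (a - l).im < Real.pi) :
    Complex.exp a / Complex.exp l ∈ Complex.slitPlane := by
  rw [← Complex.exp_sub]
  rw [Complex.mem_slitPlane_iff_arg]
  refine ⟨?_, Complex.exp_ne_zero _⟩
  have h3 := Complex.log_exp h1 h2.le
  have h4 := congrArg Complex.im h3
  rw [Complex.log_im] at h4
  rw [h4]
  exact h2.ne

/-- the local branch -/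
def DL_hom (N k : ℕ) (hN : 1 ≤ N) (l : E) : OpenPartialHomeomorph E E where
  toFun := fun p => DL_inv N k (DL_log l p)
  invFun := fun x => (Complex.exp (DL_fwd N k x).1, Complex.exp (DL_fwd N k x).2)
  source := {p | p.1 / Complex.exp l.1 ∈ Complex.slitPlane ∧
    p.2 / Complex.exp l.2 ∈ Complex.slitPlane ∧ ‖p.1 * p.2‖ < 1}
  target := {x | ((-Real.pi < ((DL_fwd N k x).1 - l.1).im ∧ ((DL_fwd N k x).1 - l.1).im < Real.pi) ∧
    (-Real.pi < ((DL_fwd N k x).2 - l.2).im ∧ ((DL_fwd N k x).2 - l.2).im < Real.pi)) ∧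
    ‖Complex.exp (DL_fwd N k x).1 * Complex.exp (DL_fwd N k x).2‖ < 1}
  map_source' := by
    rintro p ⟨h1, h2, h3⟩
    have hp1 : p.1 ≠ 0 := by
      rintro h
      rw [h, zero_div] at h1
      exact Complex.slitPlane_ne_zero h1 rfl
    have hp2 : p.2 ≠ 0 := by
      rintro h
      rw [h, zero_div] at h2
      exact Complex.slitPlane_ne_zero h2 rfl
    refine ⟨⟨?_, ?_⟩, ?_⟩
    · rw [DL_fwd_inv N k hN]
      exact DL_im_log l.1 p.1 h1
    · rw [DL_fwd_inv N k hN]
      exact DL_im_log l.2 p.2 h2
    · rw [DL_fwd_inv N k hN]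
      unfold DL_log
      simp only
      rw [DL_exp_log l.1 p.1 hp1, DL_exp_log l.2 p.2 hp2]
      exact h3
  map_target' := by
    rintro x ⟨⟨h1, h2⟩, h3⟩
    exact ⟨DL_exp_slit l.1 _ h1.1 h1.2, DL_exp_slit l.2 _ h2.1 h2.2, h3⟩
  left_inv' := by
    rintro p ⟨h1, h2, h3⟩
    have hp1 : p.1 ≠ 0 := by
      rintro h
      rw [h, zero_div] at h1
      exact Complex.slitPlane_ne_zero h1 rfl
    have hp2 : p.2 ≠ 0 := by
      rintro h
      rw [h, zero_div] at h2
      exact Complex.slitPlane_ne_zero h2 rfl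
    rw [DL_fwd_inv N k hN]
    unfold DL_log
    simp only
    rw [DL_exp_log l.1 p.1 hp1, DL_exp_log l.2 p.2 hp2]
  right_inv' := by
    rintro x ⟨⟨h1, h2⟩, h3⟩
    have e : DL_log l (Complex.exp (DL_fwd N k x).1, Complex.exp (DL_fwd N k x).2)
        = DL_fwd N k x := by
      unfold DL_log
      simp only
      rw [DL_log_exp l.1 _ h1.1 h1.2, DL_log_exp l.2 _ h2.1 h2.2]
    rw [e, DL_inv_fwd N k hN]
  open_source := by
    have c1 : Continuous (fun p : E => p.1 / Complex.exp l.1) := continuous_fst.div_const _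
    have c2 : Continuous (fun p : E => p.2 / Complex.exp l.2) := continuous_snd.div_const _
    have c3 : Continuous (fun p : E => ‖p.1 * p.2‖) := (continuous_fst.mul continuous_snd).norm
    exact (Complex.isOpen_slitPlane.preimage c1).inter
      ((Complex.isOpen_slitPlane.preimage c2).inter (isOpen_lt c3 continuous_const))
  open_target := by
    have c0 : Continuous (DL_fwd N k) := (DL_fwd_cd N k).continuous
    have c1 : Continuous (fun x : E => ((DL_fwd N k x).1 - l.1).im) :=
      Complex.continuous_im.comp ((continuous_fst.comp c0).sub continuous_const)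
    have c2 : Continuous (fun x : E => ((DL_fwd N k x).2 - l.2).im) :=
      Complex.continuous_im.comp ((continuous_snd.comp c0).sub continuous_const)
    have c3 : Continuous (fun x : E => ‖Complex.exp (DL_fwd N k x).1 *
        Complex.exp (DL_fwd N k x).2‖) :=
      ((Complex.continuous_exp.comp (continuous_fst.comp c0)).mul
        (Complex.continuous_exp.comp (continuous_snd.comp c0))).norm
    exact (((isOpen_lt continuous_const c1).inter (isOpen_lt c1 continuous_const)).inter
      ((isOpen_lt continuous_const c2).inter (isOpen_lt c2 continuous_const))).inter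
      (isOpen_lt c3 continuous_const)
  continuousOn_toFun := by
    refine (DL_inv_cd N k).continuous.comp_continuousOn ?_
    refine ContinuousOn.prodMk ?_ ?_
    · refine continuousOn_const.add (ContinuousOn.clog ?_ ?_)
      · exact (continuous_fst.div_const _).continuousOn
      · rintro p ⟨h1, h2, h3⟩
        exact h1
    · refine continuousOn_const.add (ContinuousOn.clog ?_ ?_)
      · exact (continuous_snd.div_const _).continuousOn
      · rintro p ⟨h1, h2, h3⟩
        exact h2
  continuousOn_invFun := by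
    have c0 : Continuous (DL_fwd N k) := (DL_fwd_cd N k).continuous
    exact ((Complex.continuous_exp.comp (continuous_fst.comp c0)).prodMk
      (Complex.continuous_exp.comp (continuous_snd.comp c0))).continuousOn

theorem DL_hom_cd (N k : ℕ) (hN : 1 ≤ N) (l : E) :
    ContDiffOn ℂ ω (DL_hom N k hN l) (DL_hom N k hN l).source := by
  have h : ∀ p ∈ (DL_hom N k hN l).source, ContDiffAt ℂ ω (fun p => DL_inv N k (DL_log l p)) p := by
    rintro p ⟨h1, h2, h3⟩
    refine (DL_inv_cd N k).contDiffAt.comp p ?_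
    refine ContDiffAt.prodMk ?_ ?_
    · refine contDiffAt_const.add ?_
      exact (Complex.contDiffAt_log h1).comp p (contDiff_fst.div_const _).contDiffAt
    · refine contDiffAt_const.add ?_
      exact (Complex.contDiffAt_log h2).comp p (contDiff_snd.div_const _).contDiffAt
  intro p hp
  exact (h p hp).contDiffWithinAt

theorem DL_hom_cd' (N k : ℕ) (hN : 1 ≤ N) (l : E) :
    ContDiffOn ℂ ω (DL_hom N k hN l).symm (DL_hom N k hN l).target := by
  have h : ContDiff ℂ ω (fun x : E => ((Complex.exp (DL_fwd N k x).1,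
      Complex.exp (DL_fwd N k x).2) : E)) :=
    (Complex.contDiff_exp.comp (contDiff_fst.comp (DL_fwd_cd N k))).prodMk
      (Complex.contDiff_exp.comp (contDiff_snd.comp (DL_fwd_cd N k)))
  exact h.contDiffOn

theorem st_DL : ST_DL := by
  intro N hN k p hp hp1
  have hN' : (N : ℂ) ≠ 0 := by exact_mod_cast (by omega : N ≠ 0)
  have hI : I ≠ 0 := Complex.I_ne_zero
  have hpi : (Real.pi : ℂ) ≠ 0 := by exact_mod_cast Real.pi_ne_zero
  have hX : p.1 ≠ 0 := left_ne_zero_of_mul hp
  have hY : p.2 ≠ 0 := right_ne_zero_of_mul hp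
  constructor
  · refine ⟨DL_inv N k.val (Complex.log p.1, Complex.log p.2), ?_⟩
    exact DL_D0 N k.val hN _ p k rfl (Complex.exp_log hX) (Complex.exp_log hY) hp1
  · intro x₀ hx₀
    obtain ⟨him, h1, h2⟩ := hx₀
    set l : E := DL_fwd N k.val x₀ with hl
    have el2 : Complex.exp l.2 = p.2 := by
      have e1 : l.2 = 2 * Real.pi * I * x₀.2 - (k.val : ℂ) * (2 * Real.pi * I * x₀.1 / N) := by
        rw [hl]
        unfold DL_fwd
        simp only
        ring
      rw [e1, Complex.exp_sub, h2, Complex.exp_nat_mul, h1]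
      have : (p.1 * p.2) ^ k.val ≠ 0 := pow_ne_zero _ hp
      field_simp
    have el1 : Complex.exp l.1 = p.1 := by
      have e1 : l.1 = 2 * Real.pi * I * x₀.1 / N - l.2 := by
        rw [hl]
        unfold DL_fwd
        simp only
        ring
      rw [e1, Complex.exp_sub, h1, el2]
      field_simp
    refine ⟨DL_hom N k.val hN l, ?_, ?_, ?_, DL_hom_cd N k.val hN l, DL_hom_cd' N k.val hN l⟩
    · refine ⟨?_, ?_, hp1⟩
      · rw [el1, div_self hX]
        exact Complex.one_mem_slitPlane
      · rw [el2, div_self hY]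
        exact Complex.one_mem_slitPlane
    · change DL_inv N k.val (DL_log l p) = x₀
      have e : DL_log l p = l := by
        unfold DL_log
        rw [el1, el2, div_self hX, div_self hY, Complex.log_one, add_zero, add_zero]
      rw [e, hl, DL_inv_fwd N k.val hN]
    · rintro p' ⟨g1, g2, g3⟩
      have hp1' : p'.1 ≠ 0 := by
        rintro h
        rw [h, zero_div] at g1
        exact Complex.slitPlane_ne_zero g1 rfl
      have hp2' : p'.2 ≠ 0 := by
        rintro h
        rw [h, zero_div] at g2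
        exact Complex.slitPlane_ne_zero g2 rfl
      refine ⟨mul_ne_zero hp1' hp2', g3, ?_⟩
      exact DL_D0 N k.val hN _ p' k rfl (DL_exp_log l.1 p'.1 hp1') (DL_exp_log l.2 p'.2 hp2') g3

end RicP
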