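import Pool.Agent.Helper88.Ric.Stmts

/-!
MP_092777_ag, module UINV: invariance of the semi-flat metric under the maps `hGam`.
-/

set_option autoImplicit false

open scoped ContDiff Manifold Topology MatrixGroups LinearAlgebra.Projectivization
open Complex

noncomputable section

namespace RicP

theorem UINV_jj_ne (γ : SL(2, ℤ)) (τ : ℂ) (hτ : 0 < τ.im) : jj γ τ ≠ 0 := by
  intro h
  unfold jj at h
  have h1 := congrArg Complex.im h
  have h2 := congrArg Complex.re h
  simp at h1 h2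
  have hc : (γ 1 0 : ℤ) = 0 := by
    rcases h1 with h1 | h1
    · exact_mod_cast h1
    · exact absurd h1 hτ.ne'
  rw [hc] at h2
  simp at h2
  have hdet := Matrix.SpecialLinearGroup.det_coe γ
  rw [Matrix.det_fin_two] at hdet
  rw [hc, h2] at hdet
  simp at hdet

theorem UINV_im_mob (γ : SL(2, ℤ)) (τ : ℂ) (hτ : 0 < τ.im) :
    (mob γ τ).im = τ.im / ‖jj γ τ‖ ^ 2 := by
  have hj := UINV_jj_ne γ τ hτ
  have hdet := Matrix.SpecialLinearGroup.det_coe γ
  rw [Matrix.det_fin_two] at hdet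
  have hdetR : ((γ 0 0 : ℤ) : ℝ) * ((γ 1 1 : ℤ) : ℝ) - ((γ 0 1 : ℤ) : ℝ) * ((γ 1 0 : ℤ) : ℝ) = 1 := by
    exact_mod_cast hdet
  have hn : ‖jj γ τ‖ ^ 2 = Complex.normSq (jj γ τ) := (Complex.normSq_eq_norm_sq _).symm
  have hns : Complex.normSq (jj γ τ) ≠ 0 := by
    rwa [Ne, Complex.normSq_eq_zero]
  rw [hn]
  have e1 : (mob γ τ).im = ((((γ 0 0 : ℤ) : ℂ) * τ + ((γ 0 1 : ℤ) : ℂ)) / jj γ τ).im := rfl
  rw [e1, Complex.div_im]
  have e2 : (jj γ τ).re = ((γ 1 0 : ℤ) : ℝ) * τ.re + ((γ 1 1 : ℤ) : ℝ) := by simp [jj]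
  have e3 : (jj γ τ).im = ((γ 1 0 : ℤ) : ℝ) * τ.im := by simp [jj]
  rw [e2, e3]
  have e4 : ((((γ 0 0 : ℤ) : ℂ) * τ + ((γ 0 1 : ℤ) : ℂ))).re
      = ((γ 0 0 : ℤ) : ℝ) * τ.re + ((γ 0 1 : ℤ) : ℝ) := by simp
  have e5 : ((((γ 0 0 : ℤ) : ℂ) * τ + ((γ 0 1 : ℤ) : ℂ))).im = ((γ 0 0 : ℤ) : ℝ) * τ.im := by simp
  rw [e4, e5, ← sub_div]
  congr 1
  linear_combination τ.im * hdetR

/-- the key identity for `(Im z)² / Im τ` -/
theorem UINV_key (w τ j : ℂ) (c d : ℝ) (hj : j = (c : ℂ) * τ + (d : ℂ)) (hτ : 0 < τ.im)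
    (hj0 : j ≠ 0) :
    ((w / j).im) ^ 2 / (τ.im / ‖j‖ ^ 2) = w.im ^ 2 / τ.im - ((c : ℂ) * w ^ 2 / j).im := by
  have hn : ‖j‖ ^ 2 = Complex.normSq j := (Complex.normSq_eq_norm_sq _).symm
  have hns : Complex.normSq j ≠ 0 := by
    rwa [Ne, Complex.normSq_eq_zero]
  rw [hn]
  have e2 : j.re = c * τ.re + d := by simp [hj]
  have e3 : j.im = c * τ.im := by simp [hj]
  have e6 : Complex.normSq j = j.re * j.re + j.im * j.im := Complex.normSq_apply j
  rw [Complex.div_im, Complex.div_im]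
  have e4 : ((c : ℂ) * w ^ 2).re = c * (w.re ^ 2 - w.im ^ 2) := by
    rw [Complex.re_ofReal_mul, pow_two, Complex.mul_re]; ring
  have e5 : ((c : ℂ) * w ^ 2).im = c * (2 * w.re * w.im) := by
    rw [Complex.im_ofReal_mul, pow_two, Complex.mul_im]; ring
  rw [e4, e5]
  field_simp
  have hq : τ.im ≠ 0 := hτ.ne'
  rw [e6, e3]
  ring

/-- the potential -/
def UINV_phi (N : ℕ) (y : E) : ℝ := FU (4 * Real.pi * y.1.im / N, 4 * Real.pi * y.2.im)

theorem UINV_phi_eq (N : ℕ) (hN : 1 ≤ N) (y : E) (hy : 0 < y.1.im) :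
    UINV_phi N y = 112 * Real.pi * N * (y.2.im ^ 2 / y.1.im)
      - 23 * (Real.log (4 * Real.pi / N) + Real.log y.1.im) := by
  have hN' : (0 : ℝ) < N := by exact_mod_cast hN
  have hpi := Real.pi_pos
  unfold UINV_phi FU
  have h1 : Real.log (4 * Real.pi * y.1.im / N) = Real.log (4 * Real.pi / N) + Real.log y.1.im := by
    rw [← Real.log_mul (by positivity) hy.ne']
    congr 1
    ring
  simp only
  rw [h1]
  field_simp
  ring

theorem UINV_phi_smooth (N : ℕ) (hN : 1 ≤ N) (y : E) (hy : 0 < y.1.im) :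
    ContDiffAt ℝ 2 (UINV_phi N) y := by
  have hN' : (0 : ℝ) < N := by exact_mod_cast hN
  have hpi := Real.pi_pos
  have h1 : ContDiff ℝ 2 (fun y : E => y.1.im) := Complex.imCLM.contDiff.comp contDiff_fst
  have h2 : ContDiff ℝ 2 (fun y : E => y.2.im) := Complex.imCLM.contDiff.comp contDiff_snd
  have hL : ContDiffAt ℝ 2 (fun y : E => 4 * Real.pi * y.1.im / N) y :=
    ((contDiff_const.mul h1).div_const _).contDiffAt
  have hT : ContDiffAt ℝ 2 (fun y : E => 4 * Real.pi * y.2.im) y :=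
    (contDiff_const.mul h2).contDiffAt
  have hL0 : 4 * Real.pi * y.1.im / N ≠ 0 := by positivity
  have h3 : ContDiffAt ℝ 2 (fun y : E => 28 * (4 * Real.pi * y.2.im) ^ 2 /
      (4 * Real.pi * y.1.im / N) - 23 * Real.log (4 * Real.pi * y.1.im / N)) y :=
    ((contDiffAt_const.mul (hT.pow 2)).div hL hL0).sub (contDiffAt_const.mul (hL.log hL0))
  exact h3

theorem st_UINV (hLV : ST_LV) (hGBI : ST_GBI) : ST_UINV := by
  obtain ⟨hLV1, hLV2, hLV3, hLV4, hLV5⟩ := hLV
  intro N hN γ a b x v w hx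
  have hN' : (0 : ℝ) < N := by exact_mod_cast hN
  obtain ⟨h, hsrc, htgt, heq, hcd, -⟩ := hGBI γ a b
  have hopen : IsOpen {x : E | 0 < x.1.im} := by rw [← hsrc]; exact h.open_source
  have hcd2 : ContDiffAt ℂ 2 (hGam γ a b) x := by
    have h1 : ContDiffOn ℂ ω (hGam γ a b) h.source := by
      refine hcd.congr (fun y _ => (heq y).symm)
    have h2 : ContDiffAt ℂ ω (hGam γ a b) x := by
      refine h1.contDiffAt ?_
      rw [hsrc]
      exact hopen.mem_nhds hx
    exact h2.of_le le_top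
  have himx : 0 < (hGam γ a b x).1.im := by
    have h1 : h x ∈ h.target := h.map_source (by rw [hsrc]; exact hx)
    rw [htgt, heq x] at h1
    exact h1
  have e1 := hLV1 (UINV_phi N) (hGam γ a b) x v w (UINV_phi_smooth N hN _ himx) hcd2
  have goal1 : levi (UINV_phi N) x v w = levi (fun y => UINV_phi N (hGam γ a b y)) x v w := by
    -- decomposition
    set A : ℂ := ((112 * Real.pi * N : ℝ) : ℂ) with hA
    set f : E → ℂ := fun y => A * (-(I * (2 * a * y.2 + a ^ 2 * y.1)) +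
      I * (((γ 1 0 : ℤ) : ℂ) * (y.2 + a * y.1 + b) ^ 2 / jj γ y.1)) with hf
    set g : E → ℂ := fun y => (jj γ y.1) ^ 46 with hg
    have hjx := UINV_jj_ne γ x.1 hx
    have hjs : ContDiff ℂ 2 (fun y : E => jj γ y.1) := by
      unfold jj
      exact (contDiff_const.mul contDiff_fst).add contDiff_const
    have hfs : ContDiffAt ℂ 2 f x := by
      refine contDiffAt_const.mul (ContDiffAt.add ?_ ?_)
      · refine ContDiffAt.neg (contDiffAt_const.mul ?_)
        exact ((contDiff_const.mul contDiff_snd).add (contDiff_const.mul contDiff_fst)).contDiffAt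
      · refine contDiffAt_const.mul (ContDiffAt.div ?_ hjs.contDiffAt hjx)
        exact (contDiff_const.mul (((contDiff_snd.add (contDiff_const.mul contDiff_fst)).add
          contDiff_const).pow 2)).contDiffAt
    have hgs : ContDiffAt ℂ 2 g x := (hjs.pow 46).contDiffAt
    have hg0 : g x ≠ 0 := pow_ne_zero _ hjx
    have hphi : ContDiffAt ℝ 2 (UINV_phi N) x := UINV_phi_smooth N hN x hx
    have hre : ContDiffAt ℝ 2 (fun y => (f y).re) x :=
      Complex.reCLM.contDiff.contDiffAt.comp x (hfs.restrict_scalars ℝ)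
    have hlog : ContDiffAt ℝ 2 (fun y => Real.log ‖g y‖) x := by
      have h1 : ContDiffAt ℝ 2 (fun y => ‖g y‖) x := (hgs.restrict_scalars ℝ).norm ℂ hg0
      exact h1.log (norm_ne_zero_iff.mpr hg0)
    have hdec : (fun y => UINV_phi N (hGam γ a b y)) =ᶠ[𝓝 x]
        (fun y => UINV_phi N y + ((f y).re + Real.log ‖g y‖)) := by
      filter_upwards [hopen.mem_nhds hx] with y hy
      have hy' : 0 < y.1.im := hy
      have hj := UINV_jj_ne γ y.1 hy'
      have him := UINV_im_mob γ y.1 hy'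
      have hpos : 0 < (hGam γ a b y).1.im := by
        change 0 < (mob γ y.1).im
        rw [him]
        have : 0 < ‖jj γ y.1‖ := norm_pos_iff.mpr hj
        positivity
      rw [UINV_phi_eq N hN y hy', UINV_phi_eq N hN _ hpos]
      have e0 : (hGam γ a b y).1.im = y.1.im / ‖jj γ y.1‖ ^ 2 := him
      have e2 : (hGam γ a b y).2 = (y.2 + (a : ℂ) * y.1 + (b : ℂ)) / jj γ y.1 := rfl
      have ekey := UINV_key (y.2 + (a : ℂ) * y.1 + (b : ℂ)) y.1 (jj γ y.1)
        ((γ 1 0 : ℤ) : ℝ) ((γ 1 1 : ℤ) : ℝ) (by simp [jj]) hy' hj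
      rw [e0, e2, ekey]
      have hnj : 0 < ‖jj γ y.1‖ := norm_pos_iff.mpr hj
      have elog : Real.log (y.1.im / ‖jj γ y.1‖ ^ 2) = Real.log y.1.im
          - 2 * Real.log ‖jj γ y.1‖ := by
        rw [Real.log_div hy'.ne' (by positivity), Real.log_pow]
        norm_num
      have elog2 : Real.log ‖g y‖ = 46 * Real.log ‖jj γ y.1‖ := by
        rw [hg]
        simp only
        rw [norm_pow, Real.log_pow]
        norm_num
      have eim : (y.2 + (a : ℂ) * y.1 + (b : ℂ)).im = y.2.im + a * y.1.im := by simp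
      have ef : (f y).re = 112 * Real.pi * N * ((2 * a * y.2.im + a ^ 2 * y.1.im)
          - ((((γ 1 0 : ℤ) : ℝ) : ℂ) * (y.2 + a * y.1 + b) ^ 2 / jj γ y.1).im) := by
        rw [hf]
        simp only
        rw [hA, Complex.re_ofReal_mul]
        congr 1
        rw [Complex.add_re, Complex.neg_re, Complex.I_mul_re, Complex.I_mul_re]
        have e7 : (2 * (a : ℂ) * y.2 + (a : ℂ) ^ 2 * y.1).im = 2 * a * y.2.im + a ^ 2 * y.1.im := by
          rw [Complex.add_im]
          have e8 : (2 * (a : ℂ) * y.2) = ((2 * a : ℝ) : ℂ) * y.2 := by push_cast; ring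
          have e9 : ((a : ℂ) ^ 2 * y.1) = ((a ^ 2 : ℝ) : ℂ) * y.1 := by push_cast; ring
          rw [e8, e9, Complex.im_ofReal_mul, Complex.im_ofReal_mul]
        rw [e7]
        simp only [Complex.ofReal_intCast]
        ring
      rw [elog, elog2, eim, ef]
      field_simp
      ring
    rw [hLV5 _ _ x v w hdec]
    rw [hLV4 _ _ x v w hphi (hre.add hlog), hLV4 _ _ x v w hre hlog,
      hLV2 f x v w hfs, hLV3 g x v w hgs hg0]
    simp
  have : levi (UINV_phi N) x v w = levi (UINV_phi N) (hGam γ a b x)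
      (fderiv ℂ (hGam γ a b) x v) (fderiv ℂ (hGam γ a b) x w) := goal1.trans e1
  exact this

end RicP
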